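import Pool.Agent.W200.MR.Stm

/-! t_SM (helper382) -/

open Finset

namespace Pool.Agent.W382.MR.SM

open Pool.Agent.W200.MR

/-- `n ↦ 1/n` -/
noncomputable def f : ℕ →* ℝ where
  toFun n := (n : ℝ)⁻¹
  map_one' := by simp
  map_mul' a b := by
    push_cast
    rw [mul_inv]

theorem f_apply (n : ℕ) : f n = (n : ℝ)⁻¹ := rfl

/-- the product -/
noncomputable def P (T : ℕ) : ℝ := ∏ p ∈ T.primesBelow, (1 - f p)⁻¹

theorem fac {p : ℕ} (hp : 2 ≤ p) : 1 ≤ (1 - f p)⁻¹ := by
  have h1 : (2 : ℝ) ≤ p := by exact_mod_cast hp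
  have h2 : f p ≤ 1 / 2 := by
    rw [f_apply, one_div]
    exact inv_anti₀ (by norm_num) h1
  have h3 : 0 ≤ f p := by
    rw [f_apply]
    positivity
  rw [one_le_inv₀ (by linarith)]
  linarith

theorem P_mono {S T : ℕ} (h : S ≤ T) : P S ≤ P T := by
  unfold P
  have hsub : S.primesBelow ⊆ T.primesBelow := by
    intro p hp
    rw [Nat.mem_primesBelow] at hp ⊢
    exact ⟨hp.1.trans_le h, hp.2⟩
  refine Finset.prod_le_prod_of_subset_of_one_le hsub (fun p hp => ?_) (fun p hp _ => ?_)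
  · have h1 := fac (Nat.prime_of_mem_primesBelow hp).two_le
    linarith
  · exact fac (Nat.prime_of_mem_primesBelow hp).two_le

theorem P_odd (j : ℕ) : P (2 * (j + 1) + 1) ≤ 2 * Real.sqrt (2 * (j : ℝ) + 1) := by
  induction j with
  | zero =>
    have h1 : P (2 * (0 + 1) + 1) = 2 := by
      unfold P
      have : Nat.primesBelow (2 * (0 + 1) + 1) = {2} := by decide
      rw [this, Finset.prod_singleton, f_apply]
      norm_num
    rw [h1]
    norm_num
  | succ j ih =>
    have hj : (0 : ℝ) ≤ j := Nat.cast_nonneg j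
    have hP0 : 0 ≤ P (2 * (j + 1) + 1) := by
      unfold P
      exact Finset.prod_nonneg fun p hp =>
        le_trans zero_le_one (fac (Nat.prime_of_mem_primesBelow hp).two_le)
    have h1 : P (2 * (j + 1 + 1) + 1) ≤ P (2 * (j + 1) + 1) * ((2 * j + 3) / (2 * j + 2)) := by
      have h2 : (1 : ℝ) ≤ (2 * j + 3) / (2 * j + 2) := by
        rw [le_div_iff₀ (by linarith)]
        linarith
      have h3 : ¬ (2 * (j + 1 + 1)).Prime := by
        intro h
        rcases (Nat.dvd_prime h).1 (Dvd.intro _ rfl : 2 ∣ 2 * (j + 1 + 1)) with h4 | h4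
        · omega
        · omega
      unfold P
      rw [Nat.primesBelow_succ, if_neg h3]
      have h4 : 2 * (j + 1 + 1) = (2 * (j + 1) + 1) + 1 := by ring
      rw [h4, Nat.primesBelow_succ]
      split_ifs with h5
      · rw [Finset.prod_insert (by
          intro h6
          exact lt_irrefl _ (Nat.mem_primesBelow.1 h6).1)]
        refine le_of_eq ?_
        rw [mul_comm]
        congr 1
        rw [f_apply]
        push_cast
        field_simp
        ring
      · exact le_mul_of_one_le_right hP0 h2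
    refine h1.trans ?_
    have h2 : P (2 * (j + 1) + 1) * ((2 * j + 3) / (2 * j + 2)) ≤
        2 * Real.sqrt (2 * (j : ℝ) + 1) * ((2 * j + 3) / (2 * j + 2)) :=
      mul_le_mul_of_nonneg_right ih (by positivity)
    refine h2.trans ?_
    push_cast
    have e1 := Real.sq_sqrt (show (0 : ℝ) ≤ 2 * (j : ℝ) + 1 by linarith)
    have e2 := Real.sq_sqrt (show (0 : ℝ) ≤ 2 * ((j : ℝ) + 1) + 1 by linarith)
    have p1 := Real.sqrt_nonneg (2 * (j : ℝ) + 1)
    have p2 := Real.sqrt_nonneg (2 * ((j : ℝ) + 1) + 1)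
    rw [← pow_le_pow_iff_left₀ (by positivity) (by positivity) (two_ne_zero)]
    have h3 : (2 * Real.sqrt (2 * (j : ℝ) + 1) * ((2 * j + 3) / (2 * j + 2))) ^ 2 =
        4 * (2 * (j : ℝ) + 1) * ((2 * j + 3) / (2 * j + 2)) ^ 2 := by
      rw [mul_pow, mul_pow, e1]
      ring
    have h4 : (2 * Real.sqrt (2 * ((j : ℝ) + 1) + 1)) ^ 2 = 4 * (2 * j + 3) := by
      rw [mul_pow, e2]
      ring
    rw [h3, h4, div_pow, mul_div_assoc', div_le_iff₀ (by positivity)]
    nlinarith

theorem P_le {T : ℕ} (hT : 1 ≤ T) : P T ≤ 4 * Real.sqrt T := by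
  have hT' : (1 : ℝ) ≤ T := by exact_mod_cast hT
  rcases Nat.lt_or_ge T 2 with h | h
  · have : T = 1 := by omega
    subst this
    have h1 : P 1 = 1 := by
      unfold P
      have : Nat.primesBelow 1 = ∅ := by decide
      rw [this, Finset.prod_empty]
    rw [h1]
    norm_num
  · obtain ⟨j, hj1, hj2⟩ : ∃ j : ℕ, T ≤ 2 * (j + 1) + 1 ∧ 2 * j + 1 ≤ T := by
      refine ⟨T / 2 - 1, ?_, ?_⟩ <;> omega
    refine (P_mono hj1).trans ((P_odd j).trans ?_)
    have h2 : Real.sqrt (2 * (j : ℝ) + 1) ≤ Real.sqrt T := by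
      apply Real.sqrt_le_sqrt
      exact_mod_cast hj2
    have h3 := Real.sqrt_nonneg (T : ℝ)
    linarith

theorem t_SM : S_SM := by
  intro T K hT hK
  refine le_trans ?_ (P_le hT)
  have hf : ∀ {p : ℕ}, p.Prime → ‖f p‖ < 1 := by
    intro p hp
    have h1 : (2 : ℝ) ≤ p := by exact_mod_cast hp.two_le
    rw [f_apply, norm_inv, Real.norm_natCast]
    exact inv_lt_one_of_one_lt₀ (by linarith)
  obtain ⟨-, hs⟩ := EulerProduct.summable_and_hasSum_smoothNumbers_prod_primesBelow_geometric hf T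
  have hmem : ∀ k ∈ K, k ∈ T.smoothNumbers := fun k hk => by
    rw [Nat.mem_smoothNumbers']
    exact (hK k hk).2
  have h1 := sum_le_hasSum (K.attach.map ⟨fun k => (⟨k.1, hmem k.1 k.2⟩ : T.smoothNumbers), by
    intro a b hab
    exact Subtype.ext (congrArg (fun z : T.smoothNumbers => (z : ℕ)) hab)⟩)
    (fun m _ => by
      rw [f_apply]
      positivity) hs
  rw [Finset.sum_map] at h1
  refine le_trans (le_of_eq ?_) h1
  rw [← Finset.sum_attach K]
  refine Finset.sum_congr rfl fun k _ => ?_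
  rw [one_div]
  rfl

end Pool.Agent.W382.MR.SM
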